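import Pool.Agent.SSF.StmtsC

/-!
# Squad SSF, row HLF: locally finite closed covers
-/

set_option autoImplicit false

open Set Topology

namespace Pool.Agent.SSF.H25

open Pool.Agent.LSG Pool.Agent.LPR Pool.Agent.SSF

/-- transport of `Compl` along isomorphisms. -/
theorem compl_equiv {E F E' F' : Type} [AddCommGroup E] [Module ℝ E] [TopologicalSpace E]
    [AddCommGroup F] [Module ℝ F] [TopologicalSpace F] [AddCommGroup E'] [Module ℝ E']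
    [TopologicalSpace E'] [AddCommGroup F'] [Module ℝ F'] [TopologicalSpace F']
    (e : E ≃L[ℝ] E') (f : F ≃L[ℝ] F') (h : Compl E' F') : Compl E F := by
  obtain ⟨i, p, hip⟩ := h
  refine ⟨(f.symm : F' →L[ℝ] F).comp (i.comp (e : E →L[ℝ] E')),
    (e.symm : E' →L[ℝ] E).comp (p.comp (f : F →L[ℝ] F')), fun x => ?_⟩
  simp [hip]

theorem hlf (hgl : HglStmt) (huf : HufStmt) (hho : HhoStmt) (lcm : LcmStmt) : HlfStmt := by
  intro X I _ _ Y hYc hlf hcov hHS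
  refine hgl X fun x => ?_
  obtain ⟨U, hU, hfin⟩ := hlf x
  obtain ⟨C, hC, hCc, hCU⟩ := exists_mem_nhds_isClosed_subset hU
  set F : Finset I := hfin.toFinset with hF
  have hUN : U ⊆ ⋃ i ∈ F, Y i := by
    intro y hy
    have hy2 : y ∈ ⋃ i, Y i := by rw [hcov]; exact mem_univ y
    obtain ⟨i, hi⟩ := mem_iUnion.1 hy2
    refine mem_iUnion₂.2 ⟨i, ?_, hi⟩
    rw [hF, Set.Finite.mem_toFinset]
    exact ⟨y, hi, hy⟩
  refine ⟨interior C, isOpen_interior, mem_interior_iff_mem_nhds.2 hC, fun O' hO' hO'o => ?_⟩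
  have hcl : closure O' ⊆ ⋃ i ∈ F, Y i :=
    (closure_minimal (hO'.trans interior_subset) hCc).trans (hCU.trans hUN)
  have hN : HS ↥(⋃ i ∈ F, Y i) := huf X I F Y hYc fun i _ => hHS i
  obtain ⟨O2, hO2, ⟨e1⟩, ⟨e2⟩⟩ := lcm X ↥(⋃ i ∈ F, Y i) PUnit.{1} (⋃ i ∈ F, Y i)
    (Homeomorph.prodPUnit ↥(⋃ i ∈ F, Y i)).symm O' hO'o hcl
  have h2 : HS (↥(⋃ i ∈ F, Y i) × PUnit.{1}) :=
    hho ↥(⋃ i ∈ F, Y i) (↥(⋃ i ∈ F, Y i) × PUnit.{1})
      ⟨(Homeomorph.prodPUnit ↥(⋃ i ∈ F, Y i)).symm⟩ hN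
  exact compl_equiv e2 e1 (h2 O2 hO2)

end Pool.Agent.SSF.H25
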